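import Pool.Agent.Helper26.DA.Goals

/-!
# Project DA (MP_05c055_al), packet BAS: seven basic facts
-/

set_option autoImplicit false

namespace Pool.Agent.Helper56.DA

open IsLocalRing Pool.Agent.Helper26.DA

universe u

variable {A : Type u} [CommRing A] [IsLocalRing A]

theorem mem_mS {n : ℕ} {z : Fin n → A} : z ∈ mS A n ↔ ∀ j, z j ∈ maximalIdeal A := Iff.rfl

theorem map_mS {m n : ℕ} (T : (Fin m → A) →ₗ[A] (Fin n → A)) {z : Fin m → A} (hz : z ∈ mS A m) :
    T z ∈ mS A n := by
  rw [LinearMap.pi_apply_eq_sum_univ T z]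
  refine Submodule.sum_mem _ fun j _ => ?_
  rw [mem_mS]
  intro i
  rw [Pi.smul_apply, smul_eq_mul]
  exact Ideal.mul_mem_right _ _ (hz j)

theorem mem_Zc_succ {F : FC A} {i : ℕ} {z : Fin (F.r (i + 1)) → A} :
    z ∈ Zc F (i + 1) ↔ F.d i z ∈ mS A (F.r i) := Iff.rfl

theorem mem_Zc_zero {F : FC A} {z : Fin (F.r 0) → A} : z ∈ Zc F 0 := Submodule.mem_top

theorem gBAS : Pool.Agent.Helper26.DA.G_BAS.{u} := by
  intro A _ _ F e a ha
  have h2 : ∀ (n : ℕ) (y : Fin e → Fin n → A), ∑ l, a l • y l = 0 → ∀ l, y l ∈ mS A n := by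
    intro n y hy l j
    have h := congrFun hy j
    rw [Finset.sum_apply] at h
    simp only [Pi.smul_apply, smul_eq_mul, Pi.zero_apply] at h
    exact ha.2 (fun l => y l j) h l
  refine ⟨?_, h2, ?_, ?_, ?_, ?_, ?_⟩
  · intro n z hz
    have h : ∀ j, ∃ c : Fin e → A, ∑ l, c l * a l = z j := by
      intro j
      have := hz j
      rw [← ha.1] at this
      exact Ideal.mem_span_range_iff_exists_fun.1 this
    choose c hc using h
    refine ⟨fun l j => c j l, ?_⟩
    funext j
    rw [Finset.sum_apply, ← hc j]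
    exact Finset.sum_congr rfl fun l _ => by rw [Pi.smul_apply, smul_eq_mul, mul_comm]
  · intro i
    cases i with
    | zero => exact fun z _ => mem_Zc_zero
    | succ i =>
      refine sup_le ?_ ?_
      · rintro z ⟨w, rfl⟩
        rw [mem_Zc_succ, F.dd]
        exact Submodule.zero_mem _
      · intro z hz
        exact mem_Zc_succ.2 (map_mS _ hz)
  · intro f hf i z hz
    cases i with
    | zero => exact mem_Zc_zero
    | succ i =>
      rw [mem_Zc_succ, hf i z]
      exact map_mS _ (mem_Zc_succ.1 hz)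
  · intro f hf i z hz
    obtain ⟨x, ⟨w, rfl⟩, y, hy, rfl⟩ := Submodule.mem_sup.1 hz
    rw [map_add, ← hf i w]
    exact Submodule.add_mem_sup ⟨_, rfl⟩ (map_mS _ hy)
  · rintro f g ⟨s, hs0, hs⟩ i z hz
    cases i with
    | zero =>
      rw [hs0 z]
      exact Submodule.mem_sup_left ⟨_, rfl⟩
    | succ i =>
      rw [hs i z]
      exact Submodule.add_mem_sup ⟨_, rfl⟩ (map_mS _ (mem_Zc_succ.1 hz))
  · intro i z y hy l
    cases i with
    | zero => exact mem_Zc_zero
    | succ i =>
      rw [mem_Zc_succ]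
      refine h2 _ (fun l => F.d i (y l)) ?_ l
      have h := F.dd i z
      rw [hy, map_sum] at h
      simpa only [map_smul] using h

end Pool.Agent.Helper56.DA
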